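import Pool.Agent.MWV.Stmts

/-!
# World A, run fill with heavy ends (squad MWV): the pentagon (row PEN)
-/

namespace Pool.Agent.MWV.H93

open Pool.Agent.Helper14_MV Pool.Agent.Helper2_MV Pool.Agent.MWF

theorem flatMap_X (f : ℕ → List ℕ) (n a : ℕ) :
    (X n a).flatMap f = (List.replicate n (f a)).flatten := by
  induction n with
  | zero => rfl
  | succ n ih =>
    show (a :: X n a).flatMap f = (f a :: List.replicate n (f a)).flatten
    rw [List.flatMap_cons, ih, List.flatten_cons]

theorem dd_flatMap (N : ℕ) (f : ℕ → List ℕ) (L : List ℕ) : (dd N L).flatMap f = im N f L := by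
  induction L with
  | nil => rfl
  | cons a L ih =>
    show ((if a % 3 = 0 then X (N + 1) a else [a]) ++ dd N L).flatMap f =
      (if a % 3 = 0 then (List.replicate (N + 1) (f a)).flatten else f a) ++ im N f L
    rw [List.flatMap_append, ih]
    by_cases h : a % 3 = 0
    · rw [if_pos h, if_pos h, flatMap_X]
    · rw [if_neg h, if_neg h, List.flatMap_cons, List.flatMap_nil, List.append_nil]

theorem filter_rep (r : ℕ → Bool) (n : ℕ) (l : List ℕ) :
    ((List.replicate n l).flatten).filter r = (List.replicate n (l.filter r)).flatten := by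
  induction n with
  | zero => rfl
  | succ n ih =>
    rw [List.replicate_succ, List.replicate_succ, List.flatten_cons, List.flatten_cons,
      List.filter_append, ih]

theorem im_filter (N : ℕ) (f : ℕ → List ℕ) (r : ℕ → Bool) (L : List ℕ) :
    (im N f L).filter r = im N (fun a => (f a).filter r) L := by
  induction L with
  | nil => rfl
  | cons a L ih =>
    show ((if a % 3 = 0 then (List.replicate (N + 1) (f a)).flatten else f a) ++
      im N f L).filter r =
      (if a % 3 = 0 then (List.replicate (N + 1) ((f a).filter r)).flatten else (f a).filter r) ++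
        im N (fun a => (f a).filter r) L
    rw [List.filter_append, ih]
    by_cases h : a % 3 = 0
    · rw [if_pos h, if_pos h, filter_rep]
    · rw [if_neg h, if_neg h]

theorem X_filter (r : ℕ → Bool) (n a : ℕ) :
    (X n a).filter r = if r a = true then X n a else [] := by
  induction n with
  | zero =>
    by_cases h : r a = true
    · rw [if_pos h]; rfl
    · rw [if_neg h]; rfl
  | succ n ih =>
    show (a :: X n a).filter r = if r a = true then (a :: X n a) else []
    by_cases h : r a = true
    · rw [List.filter_cons_of_pos h, ih, if_pos h, if_pos h]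
    · rw [List.filter_cons_of_neg h, ih, if_neg h, if_neg h]

theorem dd_filter (N : ℕ) (r : ℕ → Bool) (L : List ℕ) :
    (dd N L).filter r = dd N (L.filter r) := by
  induction L with
  | nil => rfl
  | cons a L ih =>
    show ((if a % 3 = 0 then X (N + 1) a else [a]) ++ dd N L).filter r = dd N ((a :: L).filter r)
    rw [List.filter_append, ih]
    by_cases hr : r a = true
    · rw [List.filter_cons_of_pos hr]
      show _ = (if a % 3 = 0 then X (N + 1) a else [a]) ++ dd N (L.filter r)
      by_cases h : a % 3 = 0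
      · rw [if_pos h, X_filter, if_pos hr]
      · rw [if_neg h, List.filter_cons_of_pos hr, List.filter_nil]
    · rw [List.filter_cons_of_neg hr]
      by_cases h : a % 3 = 0
      · rw [if_pos h, X_filter, if_neg hr, List.nil_append]
      · rw [if_neg h, List.filter_cons_of_neg hr, List.filter_nil, List.nil_append]

theorem W_filter (P Q L : List ℕ) (r : ℕ → Bool) (h : ∀ a, a % 3 ≠ 0 → r a = true) :
    (W P Q L).filter r = W P Q (L.filter r) := by
  have h1 : (pl P).filter r = pl P := by
    apply List.filter_eq_self.2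
    intro a ha
    apply h
    obtain ⟨e, -, he⟩ := List.mem_flatMap.1 ha
    rcases List.mem_cons.1 he with rfl | he
    · omega
    · rw [List.mem_singleton.1 he]; omega
  have h2 : (pr Q).filter r = pr Q := by
    apply List.filter_eq_self.2
    intro a ha
    apply h
    obtain ⟨e, -, he⟩ := List.mem_flatMap.1 ha
    rcases List.mem_cons.1 he with rfl | he
    · omega
    · rw [List.mem_singleton.1 he]; omega
  show (pl P ++ 2 :: (L ++ 5 :: pr Q)).filter r = pl P ++ 2 :: (L.filter r ++ 5 :: pr Q)
  rw [List.filter_append, h1, List.filter_cons_of_pos (h 2 (by norm_num)), List.filter_append,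
    List.filter_cons_of_pos (h 5 (by norm_num)), h2]

/-- the image of the run with `X` in the gaps -/
theorem cr_fj (N : ℕ) (g : ℕ → Bool) (k : ℕ) : ∀ k', k' ≤ k →
    (cr g (X N 0) 1 k').flatMap (fj (j1 k) (hd 0 [0])) = cr g (X N 0) 0 k' := by
  have hX : (X N 0).flatMap (fj (j1 k) (hd 0 [0])) = X N 0 := by
    rw [flatMap_X]
    have e : fj (j1 k) (hd 0 [0]) 0 = [0] := by simp [fj, hd]
    rw [e]
    induction N with
    | zero => rfl
    | succ n ih =>
      rw [List.replicate_succ, List.flatten_cons, ih]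
      rfl
  intro k'
  induction k' with
  | zero =>
    intro _
    show ([3 * 1 + 1] : List ℕ).flatMap (fj (j1 k) (hd 0 [0])) = [3 * 0 + 1]
    have e : fj (j1 k) (hd 0 [0]) 4 = [1] := by
      simp [fj, j1]
    simp [e]
  | succ n ih =>
    intro hn
    show (cr g (X N 0) 1 n ++ (mk g (n + 1) ++ (X N 0 ++ [3 * (1 + (n + 1)) + 1]))).flatMap
        (fj (j1 k) (hd 0 [0])) =
      cr g (X N 0) 0 n ++ (mk g (n + 1) ++ (X N 0 ++ [3 * (0 + (n + 1)) + 1]))
    rw [List.flatMap_append, List.flatMap_append, List.flatMap_append, ih (by omega), hX]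
    have e1 : (mk g (n + 1)).flatMap (fj (j1 k) (hd 0 [0])) = mk g (n + 1) := by
      unfold mk
      by_cases hg : g (n + 1) = true
      · rw [if_pos hg]
        have e : fj (j1 k) (hd 0 [0]) (3 * (n + 1) + 3) = [3 * (n + 1) + 3] := by
          have h3 : (3 * (n + 1) + 3) % 3 = 0 := by omega
          simp [fj, hd]
        simp [e]
      · rw [if_neg hg]; rfl
    have e2 : ([3 * (1 + (n + 1)) + 1] : List ℕ).flatMap (fj (j1 k) (hd 0 [0])) =
        [3 * (0 + (n + 1)) + 1] := by
      have e : fj (j1 k) (hd 0 [0]) (3 * (1 + (n + 1)) + 1) = [3 * (0 + (n + 1)) + 1] := by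
        have h3 : (3 * (1 + (n + 1)) + 1) % 3 = 1 := by omega
        have h4 : (3 * (1 + (n + 1)) + 1) / 3 = n + 2 := by omega
        have h5 : j1 k (n + 2) = some (n + 1) := by
          unfold j1
          rw [if_neg (by omega)]
          rfl
        unfold fj
        rw [if_neg (by omega), if_pos h3, h4, h5]
        show [3 * (n + 1) + 1] = _
        simp
      simp [e]
    rw [e1, e2]

theorem SS.trans' {N : ℕ} {β : FIC} {a b c : List ℕ} (h : SS N β a b) (h' : SS N β b c) :
    SS N β a c := β.trans h h'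

theorem SS.symm' {N : ℕ} {β : FIC} {a b : List ℕ} (h : SS N β a b) : SS N β b a := β.symm h

theorem pen (h1 : PpmStmt) (h2 : PjmStmt) (h3 : SbwStmt) (h4 : LbfStmt) (h5 : StsStmt)
    (h6 : SttStmt) (h7 : StrStmt) : PenStmt := by
  intro N β hm hS hdd P Q g k H
  have _ := h1
  -- the words and the properties
  set w : List ℕ → List ℕ := fun s => dd N (W (PP k P) (PP k Q) (Lp N g s k)) with hw
  set Ks : List ℕ → Prop := fun V => SS N β (Wb N P Q g k 0)
    (V.filter (fun a => decide (a ≠ 3))) with hKs
  set Kt : List ℕ → Prop := fun V => SS N β (Wb N P Q g k 1)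
    (V.filter (fun a => decide (a ≠ 0))) with hKt
  set K : List ℕ → Prop := fun V => Ks V ∧ Kt V with hK
  have kS : ∀ u v, RR β u v → Ks u → Ks v := fun u v h hu =>
    SS.trans' hu (hS _ _ (h.filter _))
  have kT : ∀ u v, RR β u v → Kt u → Kt v := fun u v h hu =>
    SS.trans' hu (hS _ _ (h.filter _))
  have hσ : β ≤ gaml Ks := le_gaml kS
  have hτ : β ≤ gaml Kt := le_gaml kT
  have hκ : β ≤ gaml K := le_gaml fun u v h hu => ⟨kS u v h hu.1, kT u v h hu.2⟩
  -- shape of the substitution instances
  have shp : ∀ (f : ℕ → List ℕ) (p q s : List ℕ), p ++ (w s).flatMap f ++ q =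
      p ++ (im N f (W (PP k P) (PP k Q) (Lp N g s k)) ++ q) := by
    intro f p q s
    rw [hw, List.append_assoc]
    show p ++ ((dd N (W (PP k P) (PP k Q) (Lp N g s k))).flatMap f ++ q) = _
    rw [dd_flatMap]
  have shf : ∀ (f : ℕ → List ℕ) (p q s : List ℕ) (r : ℕ → Bool),
      (p ++ (im N f (W (PP k P) (PP k Q) (Lp N g s k)) ++ q)).filter r =
      p.filter r ++ (im N (fun a => (f a).filter r) (W (PP k P) (PP k Q) (Lp N g s k)) ++
        q.filter r) := by
    intro f p q s r
    rw [List.filter_append, List.filter_append, im_filter]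
  -- the steps of `σ`
  have sS : ∀ s, (s = [] ∨ s = X N 0) → RR (gaml Ks) (w s) (w (s ++ X N 3)) := by
    intro s hs
    apply RR_gaml
    intro f p q
    rw [shp, shp]
    have e := h5 N (SS N β) P Q g k (fun a => (f a).filter (fun a => decide (a ≠ 3)))
      (p.filter (fun a => decide (a ≠ 3))) (q.filter (fun a => decide (a ≠ 3))) s H hs
    show SS N β _ _ ↔ SS N β _ _
    rw [shf, shf]
    constructor
    · intro h
      exact SS.trans' h (e (Or.inl h))
    · intro h
      exact SS.trans' h (SS.symm' (e (Or.inr h)))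
  -- the steps of `τ`
  have sT' : ∀ s, (s = [] ∨ s = X N 3) → ∀ (f : ℕ → List ℕ) (p q : List ℕ),
      Kt (p ++ (im N f (W (PP k P) (PP k Q) (Lp N g s k)) ++ q)) ↔
        Kt (p ++ (im N f (W (PP k P) (PP k Q) (Lp N g (X N 0 ++ s) k)) ++ q)) := by
    intro s hs f p q
    have e := h6 N (SS N β) P Q g k (fun a => (f a).filter (fun a => decide (a ≠ 0)))
      (p.filter (fun a => decide (a ≠ 0))) (q.filter (fun a => decide (a ≠ 0))) s H hs
    show SS N β _ _ ↔ SS N β _ _
    rw [shf, shf]
    constructor
    · intro h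
      exact SS.trans' h (e (Or.inl h))
    · intro h
      exact SS.trans' h (SS.symm' (e (Or.inr h)))
  have sT : ∀ s, (s = [] ∨ s = X N 3) → RR (gaml Kt) (w s) (w (X N 0 ++ s)) := by
    intro s hs
    apply RR_gaml
    intro f p q
    rw [shp, shp]
    exact sT' s hs f p q
  -- the step of `ρ`
  have sK : RR (gaml K) (w (X N 3)) (w (X N 0 ++ X N 3)) := by
    apply RR_gaml
    intro f p q
    rw [shp, shp]
    have e := h7 N (SS N β) P Q g k f p q _ _ H rfl rfl
    constructor
    · intro h
      exact ⟨SS.trans' h.1 (e (Or.inl h)), (sT' _ (Or.inr rfl) f p q).1 h.2⟩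
    · intro h
      exact ⟨SS.trans' h.1 (SS.symm' (e (Or.inr h))), (sT' _ (Or.inr rfl) f p q).2 h.2⟩
  -- the pentagon
  have hsup : RR (FIC.sup (FIC.inf (gaml K) (gaml Kt)) (gaml Ks)) (w []) (w (X N 0)) := by
    have a1 : RR (FIC.sup (FIC.inf (gaml K) (gaml Kt)) (gaml Ks)) (w []) (w (X N 3)) :=
      FIC.le_sup_right _ _ _ _ (sS [] (Or.inl rfl))
    have a2 : RR (FIC.sup (FIC.inf (gaml K) (gaml Kt)) (gaml Ks)) (w (X N 3))
        (w (X N 0 ++ X N 3)) :=
      FIC.le_sup_left _ _ _ _ ⟨sK, sT (X N 3) (Or.inr rfl)⟩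
    have a3 : RR (FIC.sup (FIC.inf (gaml K) (gaml Kt)) (gaml Ks)) (w (X N 0))
        (w (X N 0 ++ X N 3)) :=
      FIC.le_sup_right _ _ _ _ (sS (X N 0) (Or.inr rfl))
    exact (FIC.sup _ _).trans ((FIC.sup _ _).trans a1 a2) ((FIC.sup _ _).symm a3)
  have htau : RR (gaml Kt) (w []) (w (X N 0)) := by
    have h := sT [] (Or.inl rfl)
    rw [List.append_nil] at h
    exact h
  have eF0 : ∀ s, (w s).filter (fun a => decide (a ≠ 3)) = dd N (W (PP k P) (PP k Q)
      ((Lp N g s k).filter (fun a => decide (a ≠ 3)))) := by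
    intro s
    show (dd N (W (PP k P) (PP k Q) (Lp N g s k))).filter _ = _
    rw [dd_filter, W_filter]
    intro a ha
    rw [decide_eq_true_eq]
    omega
  have eF1 : ∀ s, (w s).filter (fun a => decide (a ≠ 0)) = dd N (W (PP k P) (PP k Q)
      ((Lp N g s k).filter (fun a => decide (a ≠ 0)))) := by
    intro s
    show (dd N (W (PP k P) (PP k Q) (Lp N g s k))).filter _ = _
    rw [dd_filter, W_filter]
    intro a ha
    rw [decide_eq_true_eq]
    omega
  have hu : K (w []) := by
    constructor
    · show SS N β _ ((w []).filter _)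
      rw [eF0]
      exact hdd (Wb N P Q g k 0)
    · show SS N β _ ((w []).filter _)
      rw [eF1]
      exact hdd (Wb N P Q g k 1)
  have hv : K (w (X N 0)) := by
    have hρ : β ≤ FIC.inf (gaml K) (gaml Kt) := FIC.le_inf hκ hτ
    refine pent (ρ := FIC.inf (gaml K) (gaml Kt)) (σ := gaml Ks) (τ := gaml Kt) hm hρ hσ hτ
      (FIC.inf_le_right _ _) ?_ ?_ hsup htau hu
    · intro u v h hu
      exact (gaml_keep (P := K) h.1).1 hu
    · intro u v h h' hu
      exact ⟨(gaml_keep h).1 hu.1, (gaml_keep h').1 hu.2⟩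
  -- the conclusion
  have hv1 : SS N β (Wb N P Q g k 0) (W (PP k P) (PP k Q)
      ((Lp N g (X N 0) k).filter (fun a => decide (a ≠ 3)))) := by
    have h := hv.1
    have h' : SS N β (Wb N P Q g k 0) ((w (X N 0)).filter (fun a => decide (a ≠ 3))) := h
    rw [eF0] at h'
    exact SS.trans' h' (SS.symm' (hdd _))
  have hkp := H.kp
  have hPQ : ∀ e ∈ P ++ Q, e ≤ k := by
    intro e he
    have := (H.pm.mem_iff).1 he
    rw [List.mem_range] at this
    omega
  have hfj : ∀ h, h % 3 = 0 → ∀ a ∈ fj (j1 k) (hd 0 [0]) h, a % 3 = 0 := by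
    intro h hh a ha
    unfold fj at ha
    rw [if_pos hh] at ha
    unfold hd at ha
    by_cases h0 : h = 3 * 0
    · rw [if_pos h0] at ha
      rw [List.mem_singleton.1 ha]
    · rw [if_neg h0] at ha
      rw [List.mem_singleton.1 ha]
      exact hh
  have hv2 := H.wo.sub (fj (j1 k) (hd 0 [0])) hfj hv1
  have eW : (Wb N P Q g k 0).flatMap (fj (j1 k) (hd 0 [0])) =
      W P Q (X N 0 ++ (cr g [] 0 k ++ X N 0)) := by
    unfold Wb
    rw [h3, (h2 k P hkp (fun e he => hPQ e (List.mem_append_left _ he))).1,
      (h2 k Q hkp (fun e he => hPQ e (List.mem_append_right _ he))).1, (h4 N g k [0] hkp).1]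
    have e : (List.replicate N ([0] : List ℕ)).flatten = X N 0 := by
      rw [List.flatten_replicate_singleton]
    rw [e]
  have hX : (X N 0).flatMap (fj (j1 k) (hd 0 [0])) = X N 0 := by
    rw [flatMap_X]
    have e : fj (j1 k) (hd 0 [0]) 0 = [0] := by simp [fj, hd]
    rw [e, List.flatten_replicate_singleton]
  have eL : ((Lp N g (X N 0) k).filter (fun a => decide (a ≠ 3))) =
      X N 0 ++ 1 :: (cr g (X N 0) 1 k ++ (X N 0 ++ [3 * (k + 2) + 1])) := by
    unfold Lp
    have c1 : (X N 0).filter (fun a => decide (a ≠ 3)) = X N 0 := by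
      rw [X_filter, if_pos (by decide)]
    have c2 : (X N 3).filter (fun a => decide (a ≠ 3)) = [] := by
      rw [X_filter, if_neg (by decide)]
    have c3 : ∀ k', (cr g (X N 0) 1 k').filter (fun a => decide (a ≠ 3)) =
        cr g (X N 0) 1 k' := by
      intro k'
      induction k' with
      | zero => rfl
      | succ n ih =>
        show (cr g (X N 0) 1 n ++ (mk g (n + 1) ++ (X N 0 ++ [3 * (1 + (n + 1)) + 1]))).filter _ =
          cr g (X N 0) 1 n ++ (mk g (n + 1) ++ (X N 0 ++ [3 * (1 + (n + 1)) + 1]))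
        rw [List.filter_append, List.filter_append, List.filter_append, ih, c1]
        have d1 : (mk g (n + 1)).filter (fun a => decide (a ≠ 3)) = mk g (n + 1) := by
          unfold mk
          by_cases hg : g (n + 1) = true
          · rw [if_pos hg, List.filter_cons_of_pos (by rw [decide_eq_true_eq]; omega)]
            rfl
          · rw [if_neg hg]; rfl
        have d2 : ([3 * (1 + (n + 1)) + 1] : List ℕ).filter (fun a => decide (a ≠ 3)) =
            [3 * (1 + (n + 1)) + 1] := by
          rw [List.filter_cons_of_pos (by rw [decide_eq_true_eq]; omega)]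
          rfl
        rw [d1, d2]
    rw [List.filter_append, List.filter_cons_of_pos (by decide), List.filter_append,
      List.filter_append, List.filter_append, c1, c2, c3,
      List.filter_cons_of_pos (by rw [decide_eq_true_eq]; omega), c2, List.nil_append]
  have eV : (W (PP k P) (PP k Q) ((Lp N g (X N 0) k).filter (fun a => decide (a ≠ 3)))).flatMap
      (fj (j1 k) (hd 0 [0])) = W P Q (X N 0 ++ (cr g (X N 0) 0 k ++ X N 0)) := by
    rw [h3, (h2 k P hkp (fun e he => hPQ e (List.mem_append_left _ he))).1,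
      (h2 k Q hkp (fun e he => hPQ e (List.mem_append_right _ he))).1, eL]
    have e1 : fj (j1 k) (hd 0 [0]) 1 = [] := by simp [fj, j1]
    have e2 : fj (j1 k) (hd 0 [0]) (3 * (k + 2) + 1) = [] := by
      have h3 : (3 * (k + 2) + 1) % 3 = 1 := by omega
      have h4 : (3 * (k + 2) + 1) / 3 = k + 2 := by omega
      unfold fj
      rw [if_neg (by omega), if_pos h3, h4]
      unfold j1
      rw [if_pos (Or.inr rfl)]
      rfl
    rw [List.flatMap_append, List.flatMap_cons, List.flatMap_append, List.flatMap_append,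
      List.flatMap_cons, List.flatMap_nil, e1, e2, cr_fj N g k k le_rfl, hX]
    simp
  rw [eW, eV] at hv2
  exact H.nrun hv2

end Pool.Agent.MWV.H93
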